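import Mathlib
import Pool.Agent.H20.PlaneDefs
import Pool.Agent.H19.Book

set_option autoImplicit false

namespace Pool.Agent.Results.MP_01d970_co.Counter

open Finset Pool.Agent.H20

/-- every monochromatic component of the colouring `f` has at most `c` vertices. -/
def Clustering {V C : Type} (G : SimpleGraph V) (f : V → C) (c : ℕ) : Prop :=
  ∀ v, {u | Relation.ReflTransGen (fun x y => G.Adj x y ∧ f x = f y) v u}.ncard ≤ c

def hA (f i g j : ℕ) : Prop :=
  (f = g ∧ 1 ≤ i ∧ j = i + 1) ∨ (f = g ∧ i = 0 ∧ j % 2 = 1) ∨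
    (f = (g + 1) % 3 ∧ i = 0 ∧ 1 ≤ j ∧ j % 2 = 0)

def phi (f : Fin 3) (i : ℕ) : Fin 3 := if i % 2 = 1 then f + 1 else f

abbrev W (K m : ℕ) := ((Fin 3 → Fin 7) × Fin K) × Fin 3 × Fin (m + 1)

def adj {K m : ℕ} : Fin 7 ⊕ W K m → Fin 7 ⊕ W K m → Prop
  | .inl _, .inl _ => False
  | .inl a, .inr w => Function.Injective w.1.1 ∧ w.1.1 (phi w.2.1 w.2.2) = a
  | .inr w, .inl a => Function.Injective w.1.1 ∧ w.1.1 (phi w.2.1 w.2.2) = a
  | .inr u, .inr w => u.1 = w.1 ∧ (hA u.2.1 u.2.2 w.2.1 w.2.2 ∨ hA w.2.1 w.2.2 u.2.1 u.2.2)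

def gr (K m : ℕ) : SimpleGraph (Fin 7 ⊕ W K m) where
  Adj := adj
  symm := ⟨by
    rintro (a | a) (b | b) h
    · exact h
    · exact h
    · exact h
    · exact ⟨h.1.symm, h.2.symm⟩⟩
  loopless := ⟨by
    rintro (a | a) h
    · exact h
    · have := h.2
      unfold hA at this
      omega⟩

lemma phi_ne {f g : Fin 3} {i j : ℕ} (h : hA f i g j ∨ hA g j f i) : phi f i ≠ phi g j := by
  unfold hA at h
  unfold phi
  intro e
  have := f.isLt
  have := g.isLt
  split_ifs at e <;> simp only [Fin.ext_iff, Fin.val_add, Fin.val_one] at e <;> omega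

lemma tri (K m : ℕ) : (gr K m).CliqueFree 3 := by
  classical
  intro s hs
  obtain ⟨a, b, c, h1, h2, h3, -⟩ := SimpleGraph.is3Clique_iff.1 hs
  have key : ∀ (x : Fin 7) (u w : W K m), adj (.inl x) (.inr u) → adj (.inl x) (.inr w) →
      adj (.inr u) (.inr w) → False := by
    intro x u w h1 h2 h3
    have e := h1.2.trans h2.2.symm
    rw [← h3.1] at e
    exact phi_ne h3.2 (h1.1 e)
  rcases a with a | a <;> rcases b with b | b <;> rcases c with c | c
  · exact h1
  · exact h1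
  · exact h2
  · exact key a b c h1 h2 h3
  · exact h3
  · exact key b a c h1 h3 h2
  · exact key c a b h2 h3 h1
  · have e1 := h1.2
    have e2 := h2.2
    have e3 := h3.2
    have := a.2.1.isLt
    have := b.2.1.isLt
    have := c.2.1.isLt
    unfold hA at e1 e2 e3
    rcases e1 with (e1 | e1 | e1) | (e1 | e1 | e1) <;>
      rcases e2 with (e2 | e2 | e2) | (e2 | e2 | e2) <;> omega

def top (f i g : ℕ) : Prop := i = 0 ∧ ((f = 0 ∧ g = 0) ∨ (f = 1 ∧ g = 1) ∨ (f = 0 ∧ g = 2))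

lemma cross {f1 i1 f2 i2 f3 i3 f4 i4 : ℕ} (b1 : f1 < 3) (b2 : f2 < 3) (b3 : f3 < 3) (b4 : f4 < 3)
    (h1 : hA f1 i1 f2 i2 ∨ hA f2 i2 f1 i1) (h2 : hA f3 i3 f4 i4 ∨ hA f4 i4 f3 i3)
    (l1 : f1 < f3 ∨ f1 = f3 ∧ i1 < i3) (l2 : f3 < f2 ∨ f3 = f2 ∧ i3 < i2)
    (l3 : f2 < f4 ∨ f2 = f4 ∧ i2 < i4) :
    ¬ ((top f1 i1 f2 ∨ top f2 i2 f1) ↔ (top f3 i3 f4 ∨ top f4 i4 f3)) := by
  unfold hA at h1 h2
  unfold top
  interval_cases f1 <;> interval_cases f2 <;> interval_cases f3 <;> interval_cases f4 <;>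
    simp at * <;> omega

lemma planar (K m : ℕ) :
    IsPlanar ((gr K m).induce
      ((univ.map ⟨Sum.inl, Sum.inl_injective⟩ : Finset (Fin 7 ⊕ W K m)) : Set (Fin 7 ⊕ W K m))ᶜ) := by
  classical
  have hr : ∀ v : (((univ.map ⟨Sum.inl, Sum.inl_injective⟩ : Finset (Fin 7 ⊕ W K m)) :
      Set (Fin 7 ⊕ W K m))ᶜ : Set _), ∃ w, v.1 = Sum.inr w := by
    rintro ⟨a | a, h⟩
    · simp at h
    · exact ⟨a, rfl⟩
  choose w hw using hr
  let e := Fintype.equivFin ((Fin 3 → Fin 7) × Fin K)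
  have hadj : ∀ a b, ((gr K m).induce _).Adj a b → (w a).1 = (w b).1 ∧
      (hA (w a).2.1 (w a).2.2 (w b).2.1 (w b).2.2 ∨ hA (w b).2.1 (w b).2.2 (w a).2.1 (w a).2.2) := by
    intro a b h
    have : adj a.1 b.1 := h
    rw [hw a, hw b] at this
    exact this
  refine Pool.Agent.H19.Book.planar_of_book (L := ℕ ×ₗ ℕ ×ₗ ℕ) _
    (fun v => toLex ((e (w v).1).val, toLex ((w v).2.1.val, (w v).2.2.val))) ?_
    (fun a b => top (w a).2.1 (w a).2.2 (w b).2.1 ∨ top (w b).2.1 (w b).2.2 (w a).2.1)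
    (fun a b _ h => h.symm) ?_
  · intro a b h
    simp only [toLex_inj, Prod.mk.injEq] at h
    apply Subtype.ext
    rw [hw a, hw b]
    congr 1
    exact Prod.ext (e.injective (Fin.ext h.1)) (Prod.ext (Fin.ext h.2.1) (Fin.ext h.2.2))
  · intro a b c d h1 h2 l1 l2 l3
    obtain ⟨q1, h1⟩ := hadj a b h1
    obtain ⟨q2, h2⟩ := hadj c d h2
    simp only [Prod.Lex.toLex_lt_toLex] at l1 l2 l3
    rw [← q1] at l2 l3
    rw [← q2] at l3
    exact cross (w a).2.1.isLt (w b).2.1.isLt (w c).2.1.isLt (w d).2.1.isLt h1 h2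
      (by omega) (by omega) (by omega)

lemma star {V C : Type} [Finite V] {G : SimpleGraph V} {f : V → C} {c : ℕ} (h : Clustering G f c)
    (v : V) {I : Type} (S : Finset I) (g : I → V) (hg : Function.Injective g)
    (hS : ∀ i ∈ S, Relation.ReflTransGen (fun x y => G.Adj x y ∧ f x = f y) v (g i)) :
    S.card ≤ c := by
  refine le_trans ?_ (h v)
  rw [← Set.ncard_coe_finset]
  exact Set.ncard_le_ncard_of_injOn g (fun i hi => hS i hi) hg.injOn

lemma nocol (c : ℕ) (f : Fin 7 ⊕ W (3 * c + 1) ((2 * c + 1) * (c + 1)) → Fin 3) :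
    ¬ Clustering (gr _ _) f c := by
  classical
  intro h
  obtain ⟨r, -, hr⟩ := exists_lt_card_fiber_of_mul_lt_card_of_maps_to (s := (univ : Finset (Fin 7)))
    (t := (univ : Finset (Fin 3))) (f := fun a => f (Sum.inl a)) (n := 2)
    (fun _ _ => mem_univ _) (by simp)
  obtain ⟨T, hT, hTc⟩ := exists_subset_card_eq (n := 3) hr
  let t : Fin 3 → Fin 7 := T.orderEmbOfFin hTc
  have ht : Function.Injective t := (T.orderEmbOfFin hTc).injective
  have htr : ∀ j, f (Sum.inl (t j)) = r := fun j =>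
    (mem_filter.1 (hT (orderEmbOfFin_mem T hTc j))).2
  have h1 : ∃ k, ∀ x, f (Sum.inr ((t, k), x)) ≠ r := by
    by_contra hc
    push Not at hc
    choose x hx using hc
    obtain ⟨j, -, hj⟩ := exists_lt_card_fiber_of_mul_lt_card_of_maps_to
      (s := (univ : Finset (Fin (3 * c + 1)))) (t := (univ : Finset (Fin 3)))
      (f := fun k => phi (x k).1 (x k).2) (n := c) (fun _ _ => mem_univ _) (by simp)
    have := star h (Sum.inl (t j)) (univ.filter fun k => phi (x k).1 (x k).2 = j) (fun k => Sum.inr ((t, k), x k))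
      (fun a b e => by simpa using (by simpa using e : a = b ∧ x a = x b).1)
      (fun k hk => Relation.ReflTransGen.single
        ⟨⟨ht, congrArg t (mem_filter.1 hk).2⟩, (htr j).trans (hx k).symm⟩)
    exact absurd hj (not_lt.2 this)
  obtain ⟨k, hk⟩ := h1
  have h2 : ∃ g : Fin 3, f (Sum.inr ((t, k), g, 0)) = f (Sum.inr ((t, k), g + 1, 0)) := by
    have a0 := hk (0, 0)
    have a1 := hk (1, 0)
    have a2 := hk (2, 0)
    by_contra hc
    push Not at hc
    have b0 := hc 0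
    have b1 := hc 1
    have b2 := hc 2
    simp only [show (0 : Fin 3) + 1 = 1 from rfl, show (1 : Fin 3) + 1 = 2 from rfl,
      show (2 : Fin 3) + 1 = 0 from rfl] at b0 b1 b2
    simp only [ne_eq, Fin.ext_iff] at a0 a1 a2 b0 b1 b2
    omega
  obtain ⟨g, hg⟩ := h2
  have hlt : ∀ (j : Fin (2 * c + 1)) (i : Fin (c + 1)),
      j.val * (c + 1) + i.val + 1 < (2 * c + 1) * (c + 1) + 1 := by
    intro j i
    have h1 : (j.val + 1) * (c + 1) ≤ (2 * c + 1) * (c + 1) := Nat.mul_le_mul_right _ j.isLt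
    have := i.isLt
    nlinarith
  let P : Fin (2 * c + 1) → Fin (c + 1) → Fin 7 ⊕ W (3 * c + 1) ((2 * c + 1) * (c + 1)) :=
    fun j i => Sum.inr ((t, k), g, ⟨j.val * (c + 1) + i.val + 1, hlt j i⟩)
  have hP : ∀ j j' i i', P j i = P j' i' → j = j' ∧ i = i' := by
    intro j j' i i' e
    simp only [P, Sum.inr.injEq, Prod.mk.injEq, Fin.mk.injEq, true_and, add_left_inj] at e
    have := i.isLt
    have := i'.isLt
    have e1 : j.val = j'.val := by
      rcases lt_trichotomy j.val j'.val with l | l | l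
      · have := Nat.mul_le_mul_right (c + 1) (Nat.succ_le_of_lt l); nlinarith
      · exact l
      · have := Nat.mul_le_mul_right (c + 1) (Nat.succ_le_of_lt l); nlinarith
    rw [e1] at e
    exact ⟨Fin.ext e1, Fin.ext (by omega)⟩
  have h3 : ∃ j, ∀ i, f (P j i) ≠ f (Sum.inr ((t, k), g, 0)) := by
    by_contra hc
    push Not at hc
    choose x hx using hc
    obtain ⟨b, -, hb⟩ := exists_lt_card_fiber_of_mul_lt_card_of_maps_to
      (s := (univ : Finset (Fin (2 * c + 1)))) (t := range 2)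
      (f := fun j => (j.val * (c + 1) + (x j).val + 1) % 2) (n := c)
      (fun _ _ => mem_range.2 (Nat.mod_lt _ two_pos)) (by simp)
    by_cases hb1 : b = 1
    · have := star h (Sum.inr ((t, k), g, 0)) (univ.filter fun j : Fin (2 * c + 1) =>
            (j.val * (c + 1) + (x j).val + 1) % 2 = b) (fun j => P j (x j))
        (fun a b e => (hP _ _ _ _ e).1)
        (fun j hj => Relation.ReflTransGen.single
          ⟨⟨rfl, Or.inl (Or.inr (Or.inl ⟨rfl, rfl, (mem_filter.1 hj).2.trans hb1⟩))⟩, (hx j).symm⟩)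
      exact absurd hb (not_lt.2 this)
    · have := star h (Sum.inr ((t, k), g + 1, 0)) _ (fun j => P j (x j))
        (fun a b e => (hP _ _ _ _ e).1)
        (fun j (hj : j ∈ univ.filter fun j : Fin (2 * c + 1) =>
            (j.val * (c + 1) + (x j).val + 1) % 2 = b) => Relation.ReflTransGen.single
          ⟨⟨rfl, Or.inl (Or.inr (Or.inr ⟨Fin.val_add g 1, rfl, Nat.le_add_left _ _, by
            have := (mem_filter.1 hj).2
            show (j.val * (c + 1) + (x j).val + 1) % 2 = 0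
            omega⟩))⟩, hg.symm.trans (hx j).symm⟩)
      exact absurd hb (not_lt.2 this)
  obtain ⟨j, hj⟩ := h3
  have h4 : ∀ i i', f (P j i) = f (P j i') := by
    intro i i'
    have a0 := hk (g, 0)
    have a1 : f (P j i) ≠ r := hk _
    have a2 : f (P j i') ≠ r := hk _
    have a3 := hj i
    have a4 := hj i'
    simp only [ne_eq, Fin.ext_iff] at a0 a1 a2 a3 a4 ⊢
    omega
  have := star h (P j 0) univ (P j) (fun a b e => (hP _ _ _ _ e).2) (by
    intro i _
    induction i using Fin.induction with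
    | zero => exact Relation.ReflTransGen.refl
    | succ i ih =>
      refine (ih (mem_univ _)).tail ⟨⟨rfl, Or.inl (Or.inl ⟨rfl, Nat.le_add_left _ _, ?_⟩)⟩, h4 _ _⟩
      simp [add_assoc])
  simp at this

theorem result (c : ℕ) : ∃ (V : Type) (_ : Finite V) (G : SimpleGraph V), G.CliqueFree 3 ∧
    (∃ A : Finset V, A.card ≤ 7 ∧ IsPlanar (G.induce (A : Set V)ᶜ)) ∧
    ∀ f : V → Fin 3, ¬ Clustering G f c :=
  ⟨_, inferInstance, gr (3 * c + 1) ((2 * c + 1) * (c + 1)), tri _ _,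
    ⟨_, by simp, planar _ _⟩, nocol c⟩

end Pool.Agent.Results.MP_01d970_co.Counter
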